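import Pool.Agent.H95.GN.Targets

open Filter Topology Set

namespace H95.GN

universe u

namespace H69CV

variable {A : Type u} [BooleanAlgebra A]

lemma hom_bot (p : St A) : p.1 ⊥ = false := by
  have h := p.2.2.2 ⊤
  rw [compl_top, p.2.1] at h
  simpa using h

lemma hom_sup (p : St A) (a b : A) : p.1 (a ⊔ b) = (p.1 a || p.1 b) := by
  have h : a ⊔ b = (aᶜ ⊓ bᶜ)ᶜ := by rw [← compl_sup, compl_compl]
  rw [h, p.2.2.2, p.2.2.1, p.2.2.2, p.2.2.2]
  cases p.1 a <;> cases p.1 b <;> rfl

lemma hom_disj (p : St A) {a b : A} (h : Disjoint a b) (ha : p.1 a = true) : p.1 b = false := by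
  have h1 := p.2.2.1 a b
  rw [h.eq_bot, hom_bot, ha] at h1
  simpa using h1.symm

/-- indicator value -/
def v (p : St A) (a : A) : ℝ := if p.1 a = true then 1 else 0

lemma chi_apply (p : St A) (a : A) : chi a p = v p a := rfl

lemma v_nonneg (p : St A) (a : A) : 0 ≤ v p a := by unfold v; split_ifs <;> norm_num

lemma v_le (p : St A) (a : A) : v p a ≤ 1 := by unfold v; split_ifs <;> norm_num

lemma v_sup (p : St A) {a b : A} (h : Disjoint a b) : v p (a ⊔ b) = v p a + v p b := by
  unfold v
  rw [hom_sup]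
  by_cases ha : p.1 a = true
  · simp [ha, hom_disj p h ha]
  · simp [ha]

lemma diff_abs (p q : St A) (a : A) : |v p a - v q a| ≤ 1 := by
  rw [abs_le]
  have := v_nonneg p a; have := v_nonneg q a; have := v_le p a; have := v_le q a
  constructor <;> linarith

end H69CV

open H69CV

theorem pf_CV (hNW : T_NW.{u}) (hTC : T_TC.{u}) : T_CV.{u} := by
  intro A _ c p q hpc hdis hq hconv
  constructor
  · intro hG
    let L : ℕ → (C(St A, ℝ) →L[ℝ] ℝ) := fun n =>
      (1 / 2 : ℝ) • (ContinuousMap.evalCLM ℝ (p n) - ContinuousMap.evalCLM ℝ q)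
    have hLap : ∀ n f, L n f = (1 / 2 : ℝ) * (f (p n) - f q) := fun n f => rfl
    have hLn : ∀ n, ‖L n‖ ≤ 1 := by
      intro n
      refine ContinuousLinearMap.opNorm_le_bound _ zero_le_one fun f => ?_
      rw [hLap, one_mul, Real.norm_eq_abs, abs_mul, abs_of_nonneg (by norm_num : (0:ℝ) ≤ 1 / 2)]
      have h1 : |f (p n)| ≤ ‖f‖ := f.norm_coe_le_norm (p n)
      have h2 : |f q| ≤ ‖f‖ := f.norm_coe_le_norm q
      have h3 : |f (p n) - f q| ≤ |f (p n)| + |f q| := abs_sub _ _
      linarith
    have hev : ∀ b, ∀ᶠ n in atTop, L n (chi b) = 0 := by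
      intro b
      filter_upwards [hconv b] with n hn
      rw [hLap, chi_apply, chi_apply]
      unfold v
      rw [hn]; ring
    have hnull := hTC A L hLn (fun b =>
      tendsto_const_nhds.congr' ((hev b).mono fun n hn => hn.symm))
    have hb : ∀ (s : Finset ℕ) (ε : ℕ → ℝ), (∀ k, |ε k| ≤ 1) →
        ‖∑ k ∈ s, ε k • chi (c k)‖ ≤ 1 := by
      intro s ε hε
      rw [ContinuousMap.norm_le _ zero_le_one]
      intro x
      have hx : (∑ k ∈ s, ε k • chi (c k)) x = ∑ k ∈ s, ε k * v x (c k) := by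
        rw [ContinuousMap.sum_apply]; rfl
      rw [hx]
      by_cases h : ∃ k ∈ s, x.1 (c k) = true
      · obtain ⟨k, hk, hxk⟩ := h
        rw [Finset.sum_eq_single_of_mem k hk]
        · unfold v; rw [if_pos hxk, mul_one]; exact hε k
        · intro j _ hjk
          have : x.1 (c j) = false := hom_disj x (hdis k j (Ne.symm hjk)) hxk
          unfold v; rw [this]; simp
      · rw [Finset.sum_eq_zero]
        · simp
        · intro j hj
          have : ¬ x.1 (c j) = true := fun h' => h ⟨j, hj, h'⟩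
          unfold v; rw [if_neg this]; simp
    obtain ⟨_, h2⟩ := hNW (C(St A, ℝ)) (fun k => chi (c k)) hb
    obtain ⟨Φ, hΦ⟩ := h2 Set.univ
    have hlim := hG L 0 (fun x => by simpa using hnull x) Φ
    have hval : ∀ n, Φ (L n) = 1 / 2 := by
      intro n
      rw [hΦ, tsum_eq_single n]
      · rw [Set.indicator_univ, hLap, chi_apply, chi_apply]
        unfold v
        rw [hpc, hq]; simp
      · intro k hk
        rw [Set.indicator_univ, hLap, chi_apply, chi_apply]
        unfold v
        rw [hpc, hq]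
        simp [Ne.symm hk]
    rw [map_zero] at hlim
    have hc : Tendsto (fun n => Φ (L n)) atTop (𝓝 (1 / 2)) := by
      simp only [hval]; exact tendsto_const_nhds
    have := tendsto_nhds_unique hlim hc
    norm_num at this
  · intro hN
    let μ : ℕ → A → ℝ := fun n b => ((n:ℝ) + 1) * (v (p n) b - v q b)
    have hμ : ∀ n b, |μ n b| ≤ (n:ℝ) + 1 := by
      intro n b
      have h0 : (0:ℝ) ≤ (n:ℝ) + 1 := by positivity
      change |((n:ℝ) + 1) * (v (p n) b - v q b)| ≤ _
      rw [abs_mul, abs_of_nonneg h0]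
      exact mul_le_of_le_one_right h0 (diff_abs _ _ _)
    obtain ⟨C, hC⟩ := hN μ (by
      intro n
      refine ⟨fun a b hab => ?_, (n:ℝ) + 1, fun a => hμ n a⟩
      change ((n:ℝ) + 1) * (v (p n) (a ⊔ b) - v q (a ⊔ b)) =
        ((n:ℝ) + 1) * (v (p n) a - v q a) + ((n:ℝ) + 1) * (v (p n) b - v q b)
      rw [v_sup _ hab, v_sup _ hab]; ring) (by
      intro b
      obtain ⟨N, hN'⟩ := eventually_atTop.1 (hconv b)
      refine ⟨(N:ℝ) + 1, fun n => ?_⟩
      by_cases hn : N ≤ n
      · have h0 : μ n b = 0 := by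
          change ((n:ℝ) + 1) * (v (p n) b - v q b) = 0
          unfold v
          rw [hN' n hn]; ring
        rw [h0, abs_zero]; positivity
      · refine (hμ n b).trans ?_
        have : (n:ℝ) ≤ N := by exact_mod_cast (not_le.1 hn).le
        linarith)
    obtain ⟨n, hn⟩ := exists_nat_gt C
    have h1 := hC n {c n} (fun a _ => le_top) (by
      intro a ha b hb hab
      rw [Finset.mem_singleton] at ha hb
      exact absurd (ha.trans hb.symm) hab)
    rw [Finset.sum_singleton] at h1
    have h2 : μ n (c n) = (n:ℝ) + 1 := by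
      change ((n:ℝ) + 1) * (v (p n) (c n) - v q (c n)) = _
      unfold v
      rw [hpc, hq]; simp
    rw [h2, abs_of_nonneg (by positivity)] at h1
    linarith

end H95.GN
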