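import Pool.Agent.H95.GN.Targets

open Filter Topology Set

namespace H95.GN

universe u

namespace H69EX

variable {A : Type u} [BooleanAlgebra A]

lemma hom_bot (p : St A) : p.1 ⊥ = false := by
  have h := p.2.2.2 ⊤
  rw [compl_top, p.2.1] at h
  simpa using h

lemma hom_disj (p : St A) {a b : A} (h : Disjoint a b) (ha : p.1 a = true) : p.1 b = false := by
  have h1 := p.2.2.1 a b
  rw [h.eq_bot, hom_bot, ha] at h1
  simpa using h1.symm

lemma hom_mono (p : St A) {a b : A} (h : a ≤ b) (ha : p.1 a = true) : p.1 b = true := by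
  have h1 := p.2.2.1 a b
  rw [inf_eq_left.2 h, ha] at h1
  simpa using h1.symm

/-- prime ideal theorem -/
lemma exists_pt {e : A} (he : e ≠ ⊥) : ∃ p : St A, p.1 e = true := by
  classical
  have hd : Disjoint ((Order.PFilter.principal e : Order.PFilter A) : Set A)
      ((Order.Ideal.principal (⊥ : A) : Order.Ideal A) : Set A) := by
    rw [Set.disjoint_left]
    intro x hx hx'
    have h1 : e ≤ x := hx
    have h2 : x ≤ ⊥ := hx'
    exact he (le_bot_iff.1 (h1.trans h2))
  obtain ⟨J, hJ, _, hJe⟩ := DistribLattice.prime_ideal_of_disjoint_filter_ideal hd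
  have heJ : e ∉ J := fun h => Set.disjoint_left.1 hJe (show e ∈ (_ : Set A) from le_refl e) h
  refine ⟨⟨fun a => decide (a ∉ J), ?_, ?_, ?_⟩, by simpa using heJ⟩
  · have : (⊤ : A) ∉ J := fun h => heJ (J.lower le_top h)
    simpa using this
  · intro a b
    by_cases ha : a ∈ J
    · have : a ⊓ b ∈ J := J.lower inf_le_left ha
      simp [ha, this]
    · by_cases hb : b ∈ J
      · have : a ⊓ b ∈ J := J.lower inf_le_right hb
        simp [hb, this]
      · have : a ⊓ b ∉ J := fun h => (hJ.mem_or_mem h).elim ha hb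
        simp [ha, hb, this]
  · intro a
    by_cases ha : a ∈ J
    · have : aᶜ ∉ J := fun h => by
        have h2 := Order.Ideal.sup_mem ha h
        rw [sup_compl_eq_top] at h2
        exact heJ (J.lower le_top h2)
      simp [ha, this]
    · have : aᶜ ∈ J := hJ.compl_mem_of_notMem ha
      simp [ha, this]

lemma meas_bot {μ : A → ℝ} (hμ : ∀ a b, Disjoint a b → μ (a ⊔ b) = μ a + μ b) : μ ⊥ = 0 := by
  have h := hμ ⊥ ⊥ disjoint_bot_left
  rw [sup_bot_eq] at h
  linarith

lemma meas_sup {μ : A → ℝ} (hμ : ∀ a b, Disjoint a b → μ (a ⊔ b) = μ a + μ b) (s : Finset A)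
    (hs : ∀ a ∈ s, ∀ b ∈ s, a ≠ b → Disjoint a b) : μ (s.sup id) = ∑ a ∈ s, μ a := by
  classical
  induction s using Finset.induction_on with
  | empty => simp [meas_bot hμ]
  | insert a s ha ih =>
    rw [Finset.sup_insert, Finset.sum_insert ha, id, hμ, ih]
    · intro b hb c hc hbc
      exact hs b (Finset.mem_insert_of_mem hb) c (Finset.mem_insert_of_mem hc) hbc
    · rw [Finset.disjoint_sup_right]
      intro b hb
      exact hs a (Finset.mem_insert_self _ _) b (Finset.mem_insert_of_mem hb)
        (fun h => ha (h ▸ hb))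

/-- finite partitions adapted to a finite set -/
lemma exists_part (s : Finset A) : ∃ P : Finset A,
    (∀ e ∈ P, e ≠ ⊥) ∧ (∀ a ∈ P, ∀ b ∈ P, a ≠ b → Disjoint a b) ∧ P.sup id = ⊤ ∧
      ∀ a ∈ s, ∀ e ∈ P, e ≤ a ∨ Disjoint e a := by
  classical
  induction s using Finset.induction_on with
  | empty =>
    refine ⟨({⊤} : Finset A).erase ⊥, ?_, ?_, ?_, ?_⟩
    · intro e he; exact (Finset.mem_erase.1 he).1
    · intro a ha b hb hab
      have h1 := (Finset.mem_erase.1 ha).2
      have h2 := (Finset.mem_erase.1 hb).2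
      rw [Finset.mem_singleton] at h1 h2
      exact absurd (h1.trans h2.symm) hab
    · rw [Finset.sup_erase_bot]; simp
    · intro a ha; simp at ha
  | insert b s _ ih =>
    obtain ⟨P, h1, h2, h3, h4⟩ := ih
    refine ⟨(P.image (· ⊓ b) ∪ P.image (· \ b)).erase ⊥, ?_, ?_, ?_, ?_⟩
    · intro e he; exact (Finset.mem_erase.1 he).1
    · intro x hx y hy hxy
      have hx1 := (Finset.mem_erase.1 hx).2
      have hy1 := (Finset.mem_erase.1 hy).2
      rw [Finset.mem_union, Finset.mem_image, Finset.mem_image] at hx1 hy1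
      rcases hx1 with ⟨e, he, rfl⟩ | ⟨e, he, rfl⟩ <;> rcases hy1 with ⟨f, hf, rfl⟩ | ⟨f, hf, rfl⟩
      · have hef : e ≠ f := fun h => hxy (by rw [h])
        exact (h2 e he f hf hef).mono inf_le_left inf_le_left
      · exact (disjoint_sdiff_self_right).mono inf_le_right le_rfl
      · exact (disjoint_sdiff_self_left).mono le_rfl inf_le_right
      · have hef : e ≠ f := fun h => hxy (by rw [h])
        exact (h2 e he f hf hef).mono sdiff_le sdiff_le
    · rw [Finset.sup_erase_bot, Finset.sup_union, Finset.sup_image, Finset.sup_image,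
        ← Finset.sup_sup]
      have : (fun e : A => id (e ⊓ b) ⊔ id (e \ b)) = id := by
        funext e; simp [sup_inf_sdiff]
      calc P.sup ((id ∘ fun x => x ⊓ b) ⊔ (id ∘ fun x => x \ b)) = P.sup id := by
            refine Finset.sup_congr rfl fun e _ => ?_
            exact sup_inf_sdiff e b
        _ = ⊤ := h3
    · intro a ha x hx
      have hx1 := (Finset.mem_erase.1 hx).2
      rw [Finset.mem_union, Finset.mem_image, Finset.mem_image] at hx1
      rw [Finset.mem_insert] at ha
      rcases hx1 with ⟨e, he, rfl⟩ | ⟨e, he, rfl⟩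
      · rcases ha with rfl | ha
        · exact Or.inl inf_le_right
        · rcases h4 a ha e he with h | h
          · exact Or.inl (inf_le_left.trans h)
          · exact Or.inr (h.mono_left inf_le_left)
      · rcases ha with rfl | ha
        · exact Or.inr disjoint_sdiff_self_left
        · rcases h4 a ha e he with h | h
          · exact Or.inl (sdiff_le.trans h)
          · exact Or.inr (h.mono_left sdiff_le)

lemma part_sum {μ : A → ℝ} (hμ : ∀ a b, Disjoint a b → μ (a ⊔ b) = μ a + μ b) (P : Finset A)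
    (h2 : ∀ a ∈ P, ∀ b ∈ P, a ≠ b → Disjoint a b) (h3 : P.sup id = ⊤) (a : A)
    (h4 : ∀ e ∈ P, e ≤ a ∨ Disjoint e a) (p : {e // e ∈ P} → St A)
    (hp : ∀ e : {e // e ∈ P}, (p e).1 e.1 = true) :
    μ a = ∑ e : {e // e ∈ P}, μ e.1 * chi a (p e) := by
  classical
  have hval : ∀ e : {e // e ∈ P}, μ e.1 * chi a (p e) = if e.1 ≤ a then μ e.1 else 0 := by
    intro e
    change μ e.1 * (if (p e).1 a = true then 1 else 0) = _
    split_ifs with h1 h2 h2
    · rw [mul_one]
    · exfalso
      rcases h4 e.1 e.2 with h | h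
      · exact h2 h
      · rw [hom_disj (p e) h (hp e)] at h1
        exact absurd h1 (by simp)
    · exact absurd (hom_mono (p e) h2 (hp e)) h1
    · rw [mul_zero]
  have hsum : ∑ e : {e // e ∈ P}, μ e.1 * chi a (p e) = ∑ e ∈ P, if e ≤ a then μ e else 0 := by
    rw [Finset.sum_congr rfl fun e _ => hval e]
    exact Finset.sum_coe_sort P (fun e => if e ≤ a then μ e else 0)
  rw [hsum, ← Finset.sum_filter, ← meas_sup hμ]
  · congr 1
    have hsplit : a = P.sup (fun e => id e ⊓ a) := by
      rw [← Finset.sup_inf_distrib_right, h3, top_inf_eq]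
    apply le_antisymm
    · refine hsplit.le.trans (Finset.sup_le fun e he => ?_)
      rcases h4 e he with h | h
      · have : e ∈ P.filter (fun e => e ≤ a) := by
          rw [Finset.mem_filter]; exact ⟨he, h⟩
        exact inf_le_left.trans (Finset.le_sup (f := id) this)
      · change e ⊓ a ≤ _
        rw [h.eq_bot]; exact bot_le
    · exact Finset.sup_le fun e he => (Finset.mem_filter.1 he).2
  · intro x hx y hy hxy
    exact h2 x (Finset.mem_filter.1 hx).1 y (Finset.mem_filter.1 hy).1 hxy

end H69EX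

open H69EX

theorem pf_EX : T_EX.{u} := by
  classical
  intro A _ μ C hμ hC
  have hC0 : 0 ≤ C := by
    have := hC ∅ (by simp) (by simp)
    simpa using this
  let T : (A →₀ ℝ) →ₗ[ℝ] C(St A, ℝ) := Finsupp.linearCombination ℝ (fun a => chi a)
  let M : (A →₀ ℝ) →ₗ[ℝ] ℝ := Finsupp.linearCombination ℝ μ
  have hTs : ∀ a, T (Finsupp.single a 1) = chi a := by
    intro a
    change Finsupp.linearCombination ℝ (fun a => chi a) (Finsupp.single a 1) = _
    rw [Finsupp.linearCombination_single, one_smul]
  have hMs : ∀ a, M (Finsupp.single a 1) = μ a := by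
    intro a
    change Finsupp.linearCombination ℝ μ (Finsupp.single a 1) = _
    rw [Finsupp.linearCombination_single, one_smul]
  have hb : ∀ x, |M x| ≤ C * ‖T x‖ := by
    intro x
    obtain ⟨P, h1, h2, h3, h4⟩ := exists_part x.support
    choose p hp using fun e : {e // e ∈ P} => exists_pt (h1 e.1 e.2)
    have hM : M x = ∑ e : {e // e ∈ P}, μ e.1 * (T x) (p e) := by
      have hTx : ∀ q : St A, (T x) q = ∑ a ∈ x.support, x a * chi a q := by
        intro q
        change (Finsupp.linearCombination ℝ (fun a => chi a) x) q = _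
        rw [Finsupp.linearCombination_apply, Finsupp.sum, ContinuousMap.sum_apply]
        rfl
      have hMx : M x = ∑ a ∈ x.support, x a * μ a := by
        change Finsupp.linearCombination ℝ μ x = _
        rw [Finsupp.linearCombination_apply, Finsupp.sum]
        rfl
      rw [hMx]
      have : ∀ a ∈ x.support, x a * μ a =
          ∑ e : {e // e ∈ P}, μ e.1 * (x a * chi a (p e)) := by
        intro a ha
        conv_lhs => rw [part_sum hμ.1 P h2 h3 a (h4 a ha) p hp]
        rw [Finset.mul_sum]
        exact Finset.sum_congr rfl fun e _ => by ring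
      rw [Finset.sum_congr rfl this, Finset.sum_comm]
      refine Finset.sum_congr rfl fun e _ => ?_
      rw [hTx, Finset.mul_sum]
    rw [hM]
    calc |∑ e : {e // e ∈ P}, μ e.1 * (T x) (p e)|
        ≤ ∑ e : {e // e ∈ P}, |μ e.1 * (T x) (p e)| := Finset.abs_sum_le_sum_abs _ _
      _ ≤ ∑ e : {e // e ∈ P}, |μ e.1| * ‖T x‖ := by
          refine Finset.sum_le_sum fun e _ => ?_
          rw [abs_mul]
          exact mul_le_mul_of_nonneg_left ((T x).norm_coe_le_norm (p e)) (abs_nonneg _)
      _ = (∑ e ∈ P, |μ e|) * ‖T x‖ := by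
          rw [← Finset.sum_mul, Finset.sum_coe_sort P (fun e => |μ e|)]
      _ ≤ C * ‖T x‖ :=
          mul_le_mul_of_nonneg_right (hC P (fun _ _ => le_top) h2) (norm_nonneg _)
  have hker : LinearMap.ker T ≤ LinearMap.ker M := by
    intro x hx
    rw [LinearMap.mem_ker] at hx ⊢
    have := hb x
    rw [hx, norm_zero, mul_zero] at this
    exact abs_eq_zero.1 (le_antisymm this (abs_nonneg _))
  let f0 : LinearMap.range T →ₗ[ℝ] ℝ :=
    ((LinearMap.ker T).liftQ M hker) ∘ₗ T.quotKerEquivRange.symm.toLinearMap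
  have hf0 : ∀ x, f0 ⟨T x, LinearMap.mem_range_self T x⟩ = M x := by
    intro x
    change ((LinearMap.ker T).liftQ M hker) (T.quotKerEquivRange.symm ⟨T x, _⟩) = M x
    rw [LinearMap.quotKerEquivRange_symm_apply_image T x]
    rfl
  let f : LinearMap.range T →L[ℝ] ℝ := f0.mkContinuous C (by
    rintro ⟨y, x, rfl⟩
    rw [hf0]
    exact hb x)
  obtain ⟨g, hg1, hg2⟩ := exists_extension_norm_eq (LinearMap.range T) f
  refine ⟨g, fun a => ?_, ?_⟩
  · have := hg1 ⟨T (Finsupp.single a 1), LinearMap.mem_range_self T _⟩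
    have h3 : f ⟨T (Finsupp.single a 1), LinearMap.mem_range_self T _⟩ =
      M (Finsupp.single a 1) := hf0 _
    rw [h3, hMs] at this
    have h4 : g (T (Finsupp.single a 1)) = μ a := this
    rw [hTs] at h4
    exact h4
  · rw [hg2]
    exact LinearMap.mkContinuous_norm_le _ hC0 _

end H95.GN
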